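import Mathlib

set_option autoImplicit false
set_option linter.unusedSectionVars false

/-!
# MP_edc67c_co: the transpose automorphisms do not generate the automorphisms of the tree `SYT`

Let `T` be a tableau of shape `(3,2,1)`.  The four children of `T` come in two pairs of conjugate
shapes.  The map which transposes the skew part of the descendants of `T` whose entry `7` is in the
cell `(0,3)` or `(3,0)`, and which fixes all other tableaux, is an automorphism of the tree.  It
agrees with no element of the group generated by the transpose automorphisms on the tableaux of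
size `7`: an element of this group either preserves the shapes of all the children of a vertex or
transposes them all.
-/

namespace Pool.Agent.Results.MP_edc67c_co.HalfTranspose

/-- A standard Young tableau: a finite filling of cells by `1, …, size`, each used once, increasing
along rows and down columns. `entry i j` is the entry in row `i` and column `j` (both counted from
`0`), and it is `0` if the cell `(i, j)` does not belong to the diagram. The last two conditions
also say that the nonempty cells form a Young diagram. -/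
@[ext] structure SYT where
  /-- the number of cells -/
  size : ℕ
  /-- the entries, `0` outside the diagram -/
  entry : ℕ → ℕ → ℕ
  le_size : ∀ i j, entry i j ≤ size
  exists_unique : ∀ k, 1 ≤ k → k ≤ size → ∃! c : ℕ × ℕ, entry c.1 c.2 = k
  row : ∀ i j, entry i (j + 1) ≠ 0 → 0 < entry i j ∧ entry i j < entry i (j + 1)
  col : ∀ i j, entry (i + 1) j ≠ 0 → 0 < entry i j ∧ entry i j < entry (i + 1) j

namespace SYT

/-- The tableau formed by the entries `≤ k` of `U`. -/
def restrict (U : SYT) (k : ℕ) : SYT where
  size := min U.size k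
  entry i j := if U.entry i j ≤ k then U.entry i j else 0
  le_size i j := by
    have := U.le_size i j
    split_ifs <;> omega
  exists_unique m hm hmk := by
    obtain ⟨c, hc, huniq⟩ := U.exists_unique m hm (hmk.trans (min_le_left _ _))
    have hk : m ≤ k := hmk.trans (min_le_right _ _)
    refine ⟨c, ?_, ?_⟩
    · show (if U.entry c.1 c.2 ≤ k then U.entry c.1 c.2 else 0) = m
      have hc' : U.entry c.1 c.2 = m := hc
      rw [hc', if_pos hk]
    · intro d hd
      apply huniq
      have hd' : (if U.entry d.1 d.2 ≤ k then U.entry d.1 d.2 else 0) = m := hd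
      split_ifs at hd' with h
      · exact hd'
      · omega
  row i j h := by
    have h1 : U.entry i (j + 1) ≤ k := by
      by_contra hcon
      rw [if_neg hcon] at h
      exact h rfl
    rw [if_pos h1] at h
    obtain ⟨h2, h3⟩ := U.row i j h
    rw [if_pos h1, if_pos (by omega)]
    exact ⟨h2, h3⟩
  col i j h := by
    have h1 : U.entry (i + 1) j ≤ k := by
      by_contra hcon
      rw [if_neg hcon] at h
      exact h rfl
    rw [if_pos h1] at h
    obtain ⟨h2, h3⟩ := U.col i j h
    rw [if_pos h1, if_pos (by omega)]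
    exact ⟨h2, h3⟩

/-- The parent of `U`: the tableau obtained by deleting the entry `size` of `U`. -/
def parent (U : SYT) : SYT := U.restrict (U.size - 1)

/-- `U` is a descendant of `T` if the entries `≤ |T|` of `U` form `T`. -/
def IsDesc (U T : SYT) : Prop := U.restrict T.size = T

/-- The diagram of `T`. -/
def shape (T : SYT) : Set (ℕ × ℕ) := {c | T.entry c.1 c.2 ≠ 0}

/-- The shape of `T` is equal to its conjugate. -/
def SymmetricShape (T : SYT) : Prop := ∀ i j, (i, j) ∈ T.shape ↔ (j, i) ∈ T.shape

end SYT

/-- The tree `SYT`: each tableau of size at least `1` is joined to its parent. -/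
def tree : SimpleGraph SYT where
  Adj T U := (1 ≤ U.size ∧ T = U.parent) ∨ (1 ≤ T.size ∧ U = T.parent)
  symm := ⟨fun _ _ h => Or.symm h⟩
  loopless := ⟨fun T h => by
    have key : ∀ T : SYT, 1 ≤ T.size → T ≠ T.parent := by
      intro T h1 h2
      have := congrArg SYT.size h2
      simp only [SYT.parent, SYT.restrict] at this
      omega
    rcases h with ⟨h1, h2⟩ | ⟨h1, h2⟩ <;> exact key T h1 h2⟩

open SYT

theorem entry_restrict (U : SYT) (k i j : ℕ) :
    (U.restrict k).entry i j = if U.entry i j ≤ k then U.entry i j else 0 := rfl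

theorem size_restrict (U : SYT) (k : ℕ) : (U.restrict k).size = min U.size k := rfl

theorem restrict_restrict (U : SYT) (k l : ℕ) :
    (U.restrict k).restrict l = U.restrict (min k l) := by
  ext
  · simp only [size_restrict]; omega
  · simp only [entry_restrict]
    split_ifs <;> omega

theorem restrict_self {U : SYT} {k : ℕ} (h : U.size ≤ k) : U.restrict k = U := by
  ext i j
  · simp only [size_restrict]; omega
  · simp only [entry_restrict]
    rw [if_pos ((U.le_size i j).trans h)]

theorem SYT.IsDesc.size_le {U T : SYT} (h : U.IsDesc T) : T.size ≤ U.size := by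
  have := congrArg SYT.size h
  simp only [size_restrict] at this
  omega

theorem SYT.IsDesc.entry_eq {U T : SYT} (h : U.IsDesc T) (i j : ℕ) :
    T.entry i j = if U.entry i j ≤ T.size then U.entry i j else 0 := by
  conv_lhs => rw [← h]
  rfl

/-- The entries of `T ∪ S^t`, where `U = T ∪ S`. -/
def flip (T U : SYT) (hT : T.SymmetricShape) (hU : U.IsDesc T) : SYT where
  size := U.size
  entry i j := if T.entry i j ≠ 0 then T.entry i j else U.entry j i
  le_size i j := by
    have h1 := U.le_size j i
    have h2 := T.le_size i j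
    have h3 := hU.size_le
    split_ifs <;> omega
  exists_unique k hk hkU := by
    by_cases hkT : k ≤ T.size
    · obtain ⟨c, hc, huniq⟩ := T.exists_unique k hk hkT
      have hc' : T.entry c.1 c.2 = k := hc
      refine ⟨c, ?_, ?_⟩
      · show (if T.entry c.1 c.2 ≠ 0 then T.entry c.1 c.2 else U.entry c.2 c.1) = k
        rw [if_pos (by omega), hc']
      · intro d hd
        apply huniq
        have hd' : (if T.entry d.1 d.2 ≠ 0 then T.entry d.1 d.2 else U.entry d.2 d.1) = k := hd
        split_ifs at hd' with h
        · exact hd'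
        · exfalso
          have h1 := hU.entry_eq d.2 d.1
          rw [if_pos (by omega), hd'] at h1
          have h2 : (d.2, d.1) ∈ T.shape := by
            show T.entry d.2 d.1 ≠ 0
            omega
          exact ((hT _ _).1 h2) (not_not.1 h)
    · obtain ⟨c, hc, huniq⟩ := U.exists_unique k hk hkU
      have hc' : U.entry c.1 c.2 = k := hc
      refine ⟨(c.2, c.1), ?_, ?_⟩
      · show (if T.entry c.2 c.1 ≠ 0 then T.entry c.2 c.1 else U.entry c.1 c.2) = k
        have h1 := hU.entry_eq c.1 c.2
        rw [if_neg (by omega)] at h1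
        have h2 : T.entry c.2 c.1 = 0 := by
          by_contra hcon
          exact ((hT _ _).1 (show (c.2, c.1) ∈ T.shape from hcon)) h1
        rw [if_neg (by omega), hc']
      · intro d hd
        have hd' : (if T.entry d.1 d.2 ≠ 0 then T.entry d.1 d.2 else U.entry d.2 d.1) = k := hd
        split_ifs at hd' with h
        · have := T.le_size d.1 d.2
          omega
        · have := huniq (d.2, d.1) hd'
          rw [← this]
  row i j h := by
    have hle := T.le_size i j
    by_cases h1 : T.entry i (j + 1) ≠ 0
    · obtain ⟨h2, h3⟩ := T.row i j h1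
      rw [if_pos h1, if_pos (by omega)]
      exact ⟨h2, h3⟩
    · rw [if_neg h1] at h ⊢
      obtain ⟨h2, h3⟩ := U.col j i h
      by_cases h4 : T.entry i j ≠ 0
      · rw [if_pos h4]
        refine ⟨by omega, ?_⟩
        have h5 := hU.entry_eq (j + 1) i
        have h6 : T.entry (j + 1) i = 0 := by
          by_contra hcon
          exact ((hT _ _).1 (show (j + 1, i) ∈ T.shape from hcon)) (not_not.1 h1)
        split_ifs at h5 with h7
        · omega
        · omega
      · rw [if_neg h4]
        exact ⟨h2, h3⟩
  col i j h := by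
    have hle := T.le_size i j
    by_cases h1 : T.entry (i + 1) j ≠ 0
    · obtain ⟨h2, h3⟩ := T.col i j h1
      rw [if_pos h1, if_pos (by omega)]
      exact ⟨h2, h3⟩
    · rw [if_neg h1] at h ⊢
      obtain ⟨h2, h3⟩ := U.row j i h
      by_cases h4 : T.entry i j ≠ 0
      · rw [if_pos h4]
        refine ⟨by omega, ?_⟩
        have h5 := hU.entry_eq j (i + 1)
        have h6 : T.entry j (i + 1) = 0 := by
          by_contra hcon
          exact ((hT _ _).1 (show (j, i + 1) ∈ T.shape from hcon)) (not_not.1 h1)
        split_ifs at h5 with h7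
        · omega
        · omega
      · rw [if_neg h4]
        exact ⟨h2, h3⟩

open Classical in
/-- The map `τ_T` on tableaux, for a tableau `T` of symmetric shape: a descendant `T ∪ S` of `T` is
sent to `T ∪ S^t`, all other tableaux are fixed. -/
noncomputable def tauFun (T : SYT) (hT : T.SymmetricShape) (U : SYT) : SYT :=
  if hU : U.IsDesc T then flip T U hT hU else U

/-! ### Transposing only some of the descendants -/

section Partial

variable {T : SYT} (hT : T.SymmetricShape) (P : ℕ → ℕ → Prop) (hP : ∀ i j, P i j → P j i)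

/-- `U` is a proper descendant of `T` and its entry `|T| + 1` is in a cell of `P` -/
def Cond (T : SYT) (P : ℕ → ℕ → Prop) (U : SYT) : Prop :=
  U.IsDesc T ∧ ∃ i j, P i j ∧ U.entry i j = T.size + 1

open Classical in
/-- transpose the skew part of the descendants of `T` whose entry `|T| + 1` is in a cell of `P` -/
noncomputable def sig (U : SYT) : SYT :=
  if h : Cond T P U then flip T U hT h.1 else U

theorem entry_flip {U : SYT} (hU : U.IsDesc T) (i j : ℕ) : (flip T U hT hU).entry i j =
    if T.entry i j ≠ 0 then T.entry i j else U.entry j i := rfl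

include hT in
theorem entry_zero {i j : ℕ} (h : T.entry i j = 0) : T.entry j i = 0 := by
  by_contra hcon
  exact ((hT _ _).1 (show (j, i) ∈ T.shape from hcon)) h

/-- outside `T` the entries of a descendant are `0` or greater than `|T|` -/
theorem SYT.IsDesc.out {U : SYT} (hU : U.IsDesc T) {i j : ℕ} (h : T.entry i j = 0) :
    U.entry i j = 0 ∨ T.size < U.entry i j := by
  have := hU.entry_eq i j
  split_ifs at this <;> omega

theorem SYT.IsDesc.in' {U : SYT} (hU : U.IsDesc T) {i j : ℕ} (h : T.entry i j ≠ 0) :
    U.entry i j = T.entry i j := by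
  have := hU.entry_eq i j
  split_ifs at this <;> omega

theorem flip_restrict_le {U : SYT} (hU : U.IsDesc T) {k : ℕ} (hk : k ≤ T.size) :
    (flip T U hT hU).restrict k = U.restrict k := by
  have hs : (flip T U hT hU).size = U.size := rfl
  ext i j
  · simp only [size_restrict, hs]
  · rw [entry_restrict, entry_restrict]
    by_cases h : T.entry i j ≠ 0
    · have he : (flip T U hT hU).entry i j = U.entry i j := by
        rw [entry_flip, if_pos h, hU.in' h]
      split_ifs <;> omega
    · have he : (flip T U hT hU).entry i j = U.entry j i := by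
        rw [entry_flip, if_neg h]
      have h' : T.entry i j = 0 := not_not.1 h
      have h1 := hU.out (entry_zero hT h')
      have h2 := hU.out h'
      split_ifs <;> omega

theorem isDesc_flip {U : SYT} (hU : U.IsDesc T) : (flip T U hT hU).IsDesc T := by
  unfold SYT.IsDesc
  rw [flip_restrict_le hT hU le_rfl]
  exact hU

include hP in
theorem cond_flip {U : SYT} (h : Cond T P U) : Cond T P (flip T U hT h.1) := by
  refine ⟨isDesc_flip hT h.1, ?_⟩
  obtain ⟨i, j, hij, he⟩ := h.2
  refine ⟨j, i, hP _ _ hij, ?_⟩
  have h0 : T.entry i j = 0 := by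
    by_contra hcon
    have := h.1.in' hcon
    have := T.le_size i j
    omega
  rw [entry_flip, if_neg (by rw [entry_zero hT h0]; simp), he]

theorem flip_flip {U : SYT} (hU : U.IsDesc T) (hU' : (flip T U hT hU).IsDesc T) :
    flip T (flip T U hT hU) hT hU' = U := by
  ext i j
  · rfl
  · rw [entry_flip]
    by_cases h : T.entry i j ≠ 0
    · rw [if_pos h, hU.in' h]
    · rw [if_neg h, entry_flip]
      have h' : T.entry i j = 0 := not_not.1 h
      rw [if_neg (by rw [entry_zero hT h']; simp)]

include hP in
theorem sig_sig (U : SYT) : sig hT P (sig hT P U) = U := by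
  classical
  by_cases h : Cond T P U
  · have h1 : sig hT P U = flip T U hT h.1 := by unfold sig; rw [dif_pos h]
    have h2 := cond_flip hT P hP h
    rw [h1]
    unfold sig
    rw [dif_pos h2]
    exact flip_flip hT h.1 h2.1
  · have h1 : sig hT P U = U := by unfold sig; rw [dif_neg h]
    rw [h1, h1]

theorem size_sig (U : SYT) : (sig hT P U).size = U.size := by
  unfold sig
  split_ifs <;> rfl

theorem isDesc_restrict {U : SYT} {k : ℕ} (hk : T.size ≤ k) :
    (U.restrict k).IsDesc T ↔ U.IsDesc T := by
  unfold SYT.IsDesc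
  rw [restrict_restrict, min_eq_right hk]

theorem cond_restrict {U : SYT} {k : ℕ} :
    Cond T P (U.restrict k) ↔ Cond T P U ∧ T.size + 1 ≤ k := by
  constructor
  · rintro ⟨h1, i, j, hij, he⟩
    rw [entry_restrict] at he
    have hk : T.size + 1 ≤ k := by
      split_ifs at he <;> omega
    have he' : U.entry i j = T.size + 1 := by
      split_ifs at he <;> omega
    exact ⟨⟨(isDesc_restrict (by omega)).1 h1, i, j, hij, he'⟩, hk⟩
  · rintro ⟨⟨h1, i, j, hij, he⟩, hk⟩
    refine ⟨(isDesc_restrict (by omega)).2 h1, i, j, hij, ?_⟩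
    rw [entry_restrict, he, if_pos hk]

theorem sig_restrict (U : SYT) (k : ℕ) :
    sig hT P (U.restrict k) = (sig hT P U).restrict k := by
  classical
  by_cases h : Cond T P U
  · have h1 : sig hT P U = flip T U hT h.1 := by unfold sig; rw [dif_pos h]
    rw [h1]
    by_cases hk : T.size + 1 ≤ k
    · have h2 : Cond T P (U.restrict k) := (cond_restrict P).2 ⟨h, hk⟩
      unfold sig
      rw [dif_pos h2]
      have hs : (flip T U hT h.1).size = U.size := rfl
      ext i j
      · rfl
      · simp only [entry_flip, entry_restrict]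
        have := T.le_size i j
        split_ifs <;> omega
    · have h2 : ¬ Cond T P (U.restrict k) := fun hc => hk ((cond_restrict P).1 hc).2
      unfold sig
      rw [dif_neg h2]
      exact (flip_restrict_le hT h.1 (by omega)).symm
  · have h1 : sig hT P U = U := by unfold sig; rw [dif_neg h]
    have h2 : ¬ Cond T P (U.restrict k) := fun hc => h ((cond_restrict P).1 hc).1
    rw [h1]
    unfold sig
    rw [dif_neg h2]

theorem sig_parent (U : SYT) : sig hT P U.parent = (sig hT P U).parent := by
  unfold SYT.parent
  rw [size_sig, sig_restrict]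

include hP in
theorem sig_injective : Function.Injective (sig hT P) := by
  intro U V h
  rw [← sig_sig hT P hP U, h, sig_sig hT P hP V]

/-- The automorphism of the tree given by `sig`. -/
noncomputable def sigIso : tree ≃g tree where
  toFun := sig hT P
  invFun := sig hT P
  left_inv := sig_sig hT P hP
  right_inv := sig_sig hT P hP
  map_rel_iff' := by
    intro U V
    show (1 ≤ (sig hT P V).size ∧ sig hT P U = (sig hT P V).parent ∨
      1 ≤ (sig hT P U).size ∧ sig hT P V = (sig hT P U).parent) ↔
      (1 ≤ V.size ∧ U = V.parent) ∨ (1 ≤ U.size ∧ V = U.parent)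
    rw [size_sig, size_sig, ← sig_parent, ← sig_parent, (sig_injective hT P hP).eq_iff,
      (sig_injective hT P hP).eq_iff]

end Partial

theorem tauFun_eq {T : SYT} (hT : T.SymmetricShape) (U : SYT) :
    tauFun T hT U = sig hT (fun _ _ => True) U := by
  classical
  unfold tauFun sig
  by_cases h : U.IsDesc T
  · rw [dif_pos h]
    by_cases hc : Cond T (fun _ _ => True) U
    · rw [dif_pos hc]
    · rw [dif_neg hc]
      -- then `U = T`
      have hsize : U.size = T.size := by
        by_contra hne
        have h1 := h.size_le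
        obtain ⟨c, hc', -⟩ := U.exists_unique (T.size + 1) (by omega) (by omega)
        exact hc ⟨h, c.1, c.2, trivial, hc'⟩
      have hUT : U = T := by
        rw [← restrict_self (le_of_eq hsize)]
        exact h
      subst hUT
      ext i j
      · rfl
      · rw [entry_flip]
        by_cases h0 : U.entry i j ≠ 0
        · rw [if_pos h0]
        · rw [if_neg h0, entry_zero hT (not_not.1 h0)]
          exact (not_not.1 h0).symm
  · rw [dif_neg h, dif_neg (fun hc => h hc.1)]

/-- The transpose automorphism `τ_T` of the tree, for a tableau `T` of symmetric shape. -/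
noncomputable def tau (T : SYT) (hT : T.SymmetricShape) : tree ≃g tree where
  toFun := tauFun T hT
  invFun := tauFun T hT
  left_inv U := by
    simp only [tauFun_eq]
    exact sig_sig hT _ (fun _ _ _ => trivial) U
  right_inv U := by
    simp only [tauFun_eq]
    exact sig_sig hT _ (fun _ _ _ => trivial) U
  map_rel_iff' := by
    intro U V
    show tree.Adj (tauFun T hT U) (tauFun T hT V) ↔ tree.Adj U V
    rw [tauFun_eq, tauFun_eq]
    exact (sigIso hT (fun _ _ => True) (fun _ _ _ => trivial)).map_rel_iff'

/-! ### The invariant -/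

/-- the conjugate of a set of cells -/
def conj (S : Set (ℕ × ℕ)) : Set (ℕ × ℕ) := {c | (c.2, c.1) ∈ S}

theorem conj_conj (S : Set (ℕ × ℕ)) : conj (conj S) = S := rfl

/-- `g` preserves sizes and parents, and at each vertex it preserves the shapes of all the children
or transposes them all. -/
def Inv (g : tree ≃g tree) : Prop :=
  (∀ U, (g U).size = U.size ∧ (g U).parent = g U.parent) ∧
  ∀ T, (∀ c : SYT, 1 ≤ c.size → c.parent = T → (g c).shape = c.shape) ∨
    (∀ c : SYT, 1 ≤ c.size → c.parent = T → (g c).shape = conj c.shape)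

theorem shape_flip {T U : SYT} (hT : T.SymmetricShape) (hU : U.IsDesc T) :
    (flip T U hT hU).shape = conj U.shape := by
  ext ⟨i, j⟩
  show (flip T U hT hU).entry i j ≠ 0 ↔ U.entry j i ≠ 0
  rw [entry_flip]
  by_cases h : T.entry i j ≠ 0
  · rw [if_pos h]
    have h' : T.entry j i ≠ 0 := (hT _ _).1 (show (i, j) ∈ T.shape from h)
    rw [hU.in' h']
    exact ⟨fun _ => h', fun _ => h⟩
  · rw [if_neg h]

theorem inv_tau (T : SYT) (hT : T.SymmetricShape) : Inv (tau T hT) := by
  classical
  have happ : ∀ U, tau T hT U = sig hT (fun _ _ => True) U := tauFun_eq hT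
  have happ' : ∀ U, tau T hT U = tauFun T hT U := fun _ => rfl
  refine ⟨fun U => ?_, fun V => ?_⟩
  · rw [happ, happ, size_sig, sig_parent]
    exact ⟨rfl, rfl⟩
  · by_cases hV : V.IsDesc T
    · right
      intro c hc hcV
      have hcT : c.IsDesc T := by
        have h1 := hV.size_le
        rw [← hcV] at hV h1
        exact (isDesc_restrict (by
          have : (c.parent).size = min c.size (c.size - 1) := rfl
          omega)).1 hV
      rw [happ']
      unfold tauFun
      rw [dif_pos hcT, shape_flip]
    · left
      intro c hc hcV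
      rw [happ']
      unfold tauFun
      by_cases hcT : c.IsDesc T
      · rw [dif_pos hcT, shape_flip]
        -- then `c = T`
        have hsize : c.size = T.size := by
          by_contra hne
          have h1 := hcT.size_le
          apply hV
          rw [← hcV]
          exact (isDesc_restrict (by omega)).2 hcT
        have hce : c = T := by
          rw [← restrict_self (le_of_eq hsize)]
          exact hcT
        subst hce
        ext ⟨i, j⟩
        exact (hT j i)
      · rw [dif_neg hcT]

theorem inv_one : Inv 1 := ⟨fun _ => ⟨rfl, rfl⟩, fun _ => Or.inl (fun _ _ _ => rfl)⟩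

theorem inv_mul {g h : tree ≃g tree} (hg : Inv g) (hh : Inv h) : Inv (g * h) := by
  have happ : ∀ U, (g * h) U = g (h U) := fun _ => rfl
  refine ⟨fun U => ?_, fun T => ?_⟩
  · rw [happ, happ]
    refine ⟨(hg.1 _).1.trans (hh.1 _).1, ?_⟩
    rw [(hg.1 _).2, (hh.1 _).2]
  · have hc1 : ∀ c : SYT, 1 ≤ c.size → c.parent = T →
        1 ≤ (h c).size ∧ (h c).parent = h T := by
      intro c hc hcT
      refine ⟨by rw [(hh.1 _).1]; exact hc, ?_⟩
      rw [(hh.1 _).2, hcT]
    rcases hg.2 (h T) with h1 | h1 <;> rcases hh.2 T with h2 | h2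
    · left
      intro c hc hcT
      rw [happ, h1 _ (hc1 c hc hcT).1 (hc1 c hc hcT).2, h2 c hc hcT]
    · right
      intro c hc hcT
      rw [happ, h1 _ (hc1 c hc hcT).1 (hc1 c hc hcT).2, h2 c hc hcT]
    · right
      intro c hc hcT
      rw [happ, h1 _ (hc1 c hc hcT).1 (hc1 c hc hcT).2, h2 c hc hcT]
    · left
      intro c hc hcT
      rw [happ, h1 _ (hc1 c hc hcT).1 (hc1 c hc hcT).2, h2 c hc hcT, conj_conj]

theorem inv_inv {g : tree ≃g tree} (hg : Inv g) : Inv g⁻¹ := by
  have h1 : ∀ U, g (g⁻¹ U) = U := fun U => g.apply_symm_apply U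
  have h2 : ∀ U, g⁻¹ (g U) = U := fun U => g.symm_apply_apply U
  have hs : ∀ U, (g⁻¹ U).size = U.size := fun U => by
    rw [← (hg.1 (g⁻¹ U)).1, h1]
  have hp : ∀ U, (g⁻¹ U).parent = g⁻¹ U.parent := fun U => by
    have := (hg.1 (g⁻¹ U)).2
    rw [h1] at this
    rw [this, h2]
  refine ⟨fun U => ⟨hs U, hp U⟩, fun T => ?_⟩
  rcases hg.2 (g⁻¹ T) with h | h
  · left
    intro c hc hcT
    have := h (g⁻¹ c) (by rw [hs]; exact hc) (by rw [hp, hcT])
    rw [h1] at this
    exact this.symm
  · right
    intro c hc hcT
    have := h (g⁻¹ c) (by rw [hs]; exact hc) (by rw [hp, hcT])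
    rw [h1] at this
    rw [this, conj_conj]

/-! ### The example -/

/-- the entries of the tableau `123 / 45 / 6` -/
def e0 : ℕ → ℕ → ℕ
  | 0, 0 => 1
  | 0, 1 => 2
  | 0, 2 => 3
  | 1, 0 => 4
  | 1, 1 => 5
  | 2, 0 => 6
  | _, _ => 0

/-- the entries of the tableau `1237 / 45 / 6` -/
def e1 : ℕ → ℕ → ℕ
  | 0, 0 => 1
  | 0, 1 => 2
  | 0, 2 => 3
  | 0, 3 => 7
  | 1, 0 => 4
  | 1, 1 => 5
  | 2, 0 => 6
  | _, _ => 0

/-- the entries of the tableau `123 / 457 / 6` -/
def e2 : ℕ → ℕ → ℕ
  | 0, 0 => 1
  | 0, 1 => 2
  | 0, 2 => 3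
  | 1, 0 => 4
  | 1, 1 => 5
  | 1, 2 => 7
  | 2, 0 => 6
  | _, _ => 0

/-- the tableau `123 / 45 / 6` -/
def T0 : SYT where
  size := 6
  entry := e0
  le_size i j := by
    unfold e0; split <;> omega
  exists_unique k h1 h2 := by
    have : ∃ c : ℕ × ℕ, e0 c.1 c.2 = k := by
      interval_cases k
      · exact ⟨(0, 0), rfl⟩
      · exact ⟨(0, 1), rfl⟩
      · exact ⟨(0, 2), rfl⟩
      · exact ⟨(1, 0), rfl⟩
      · exact ⟨(1, 1), rfl⟩
      · exact ⟨(2, 0), rfl⟩
    obtain ⟨c, hc⟩ := this
    refine ⟨c, hc, ?_⟩
    rintro ⟨a, b⟩ hd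
    obtain ⟨a', b'⟩ := c
    simp only at hc hd
    unfold e0 at hc hd
    split at hc <;> split at hd <;> first | rfl | omega
  row i j h := by
    rcases i with _ | _ | _ | i <;> rcases j with _ | _ | _ | j <;> simp [e0] at h ⊢
  col i j h := by
    rcases i with _ | _ | _ | i <;> rcases j with _ | _ | _ | j <;> simp [e0] at h ⊢

/-- the tableau `1237 / 45 / 6` -/
def T1 : SYT where
  size := 7
  entry := e1
  le_size i j := by
    unfold e1; split <;> omega
  exists_unique k h1 h2 := by
    have : ∃ c : ℕ × ℕ, e1 c.1 c.2 = k := by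
      interval_cases k
      · exact ⟨(0, 0), rfl⟩
      · exact ⟨(0, 1), rfl⟩
      · exact ⟨(0, 2), rfl⟩
      · exact ⟨(1, 0), rfl⟩
      · exact ⟨(1, 1), rfl⟩
      · exact ⟨(2, 0), rfl⟩
      · exact ⟨(0, 3), rfl⟩
    obtain ⟨c, hc⟩ := this
    refine ⟨c, hc, ?_⟩
    rintro ⟨a, b⟩ hd
    obtain ⟨a', b'⟩ := c
    simp only at hc hd
    unfold e1 at hc hd
    split at hc <;> split at hd <;> first | rfl | omega
  row i j h := by
    rcases i with _ | _ | _ | i <;> rcases j with _ | _ | _ | _ | j <;> simp [e1] at h ⊢
  col i j h := by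
    rcases i with _ | _ | _ | i <;> rcases j with _ | _ | _ | _ | j <;> simp [e1] at h ⊢

/-- the tableau `123 / 457 / 6` -/
def T2 : SYT where
  size := 7
  entry := e2
  le_size i j := by
    unfold e2; split <;> omega
  exists_unique k h1 h2 := by
    have : ∃ c : ℕ × ℕ, e2 c.1 c.2 = k := by
      interval_cases k
      · exact ⟨(0, 0), rfl⟩
      · exact ⟨(0, 1), rfl⟩
      · exact ⟨(0, 2), rfl⟩
      · exact ⟨(1, 0), rfl⟩
      · exact ⟨(1, 1), rfl⟩
      · exact ⟨(2, 0), rfl⟩
      · exact ⟨(1, 2), rfl⟩
    obtain ⟨c, hc⟩ := this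
    refine ⟨c, hc, ?_⟩
    rintro ⟨a, b⟩ hd
    obtain ⟨a', b'⟩ := c
    simp only at hc hd
    unfold e2 at hc hd
    split at hc <;> split at hd <;> first | rfl | omega
  row i j h := by
    rcases i with _ | _ | _ | i <;> rcases j with _ | _ | _ | _ | j <;> simp [e2] at h ⊢
  col i j h := by
    rcases i with _ | _ | _ | i <;> rcases j with _ | _ | _ | _ | j <;> simp [e2] at h ⊢

theorem T0_symm : T0.SymmetricShape := by
  intro i j
  show e0 i j ≠ 0 ↔ e0 j i ≠ 0
  rcases i with _ | _ | _ | i <;> rcases j with _ | _ | _ | j <;> simp [e0]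

theorem T1_parent : T1.parent = T0 := by
  ext i j
  · rfl
  · show (if e1 i j ≤ 6 then e1 i j else 0) = e0 i j
    rcases i with _ | _ | _ | i <;> rcases j with _ | _ | _ | _ | j <;> simp [e0, e1]

theorem T2_parent : T2.parent = T0 := by
  ext i j
  · rfl
  · show (if e2 i j ≤ 6 then e2 i j else 0) = e0 i j
    rcases i with _ | _ | _ | i <;> rcases j with _ | _ | _ | _ | j <;> simp [e0, e2]

/-- the cells `(0, 3)` and `(3, 0)` -/
def P0 (i j : ℕ) : Prop := (i = 0 ∧ j = 3) ∨ (i = 3 ∧ j = 0)

theorem P0_symm (i j : ℕ) (h : P0 i j) : P0 j i := by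
  unfold P0 at *
  omega

/-- **The answer to Q1 is negative.** There is an automorphism `φ` of the tree `SYT` such that every
element `g` of the group generated by the transpose automorphisms (in particular every finite
composition of transpose automorphisms) differs from `φ` at some tableau of size `7`. -/
theorem result : ∃ φ : tree ≃g tree,
    ∀ g ∈ Subgroup.closure {g : tree ≃g tree | ∃ (T : SYT) (hT : T.SymmetricShape), g = tau T hT},
      ∃ U : SYT, U.size = 7 ∧ g U ≠ φ U := by
  classical
  refine ⟨sigIso T0_symm P0 P0_symm, ?_⟩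
  intro g hg
  have hinv : Inv g := by
    induction hg using Subgroup.closure_induction with
    | mem x hx =>
      obtain ⟨T, hT, rfl⟩ := hx
      exact inv_tau T hT
    | one => exact inv_one
    | mul x y _ _ hx hy => exact inv_mul hx hy
    | inv x _ hx => exact inv_inv hx
  have hD1 : T1.IsDesc T0 := T1_parent
  have hc1 : Cond T0 P0 T1 := ⟨hD1, 0, 3, Or.inl ⟨rfl, rfl⟩, rfl⟩
  have hφ1 : (sigIso T0_symm P0 P0_symm T1).shape = conj T1.shape := by
    show (sig T0_symm P0 T1).shape = _
    unfold sig
    rw [dif_pos hc1, shape_flip]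
  have hφ2 : sigIso T0_symm P0 P0_symm T2 = T2 := by
    show sig T0_symm P0 T2 = _
    unfold sig
    rw [dif_neg]
    rintro ⟨-, i, j, h | h, he⟩
    · rw [h.1, h.2] at he
      exact absurd he (by decide)
    · rw [h.1, h.2] at he
      exact absurd he (by decide)
  by_contra hcon
  push Not at hcon
  have h1 := hcon T1 rfl
  have h2 := hcon T2 rfl
  rcases hinv.2 T0 with h | h
  · have h3 := h T1 (by decide) T1_parent
    rw [h1, hφ1] at h3
    have h4 : ((0, 3) : ℕ × ℕ) ∈ T1.shape := by
      show e1 0 3 ≠ 0
      decide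
    rw [← h3] at h4
    have h5 : e1 3 0 ≠ 0 := h4
    exact h5 rfl
  · have h3 := h T2 (by decide) T2_parent
    rw [h2, hφ2] at h3
    have h4 : ((1, 2) : ℕ × ℕ) ∈ T2.shape := by
      show e2 1 2 ≠ 0
      decide
    rw [h3] at h4
    have h5 : e2 2 1 ≠ 0 := h4
    exact h5 rfl

end Pool.Agent.Results.MP_edc67c_co.HalfTranspose
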